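import Pool.Agent.Helper27.BI.S5.Geo5
import Pool.Agent.Helper27.BI.H.Hcls

/-!
# Project BI, stage 5: module MH
-/

set_option autoImplicit false

open scoped Manifold ContDiff Topology ComplexConjugate
open Set Filter Pool.Agent.Helper65.Barb Pool.Agent.Helper18.BI
open Pool.Agent.Helper70.BI (I4 LD NearEq IsW contDiff_dfam contDiff_dfam_inv)
open Pool.Agent.Helper34.BI (rade qe)
open Pool.Agent.Helper34.BI.RE (rade_eq_rad rsq_rad qe_prf qe_eq qe_low)
open Pool.Agent.Helper27.BI (e1)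
open Pool.Agent.Helper27.H

namespace Pool.Agent.Helper27.S5

namespace MH

theorem contMDiff_of {F : ℝ × R4 → R4} (h : ContDiff ℝ ∞ F) :
    ContMDiff (𝓘(ℝ, ℝ).prod 𝓘(ℝ, R4)) 𝓘(ℝ, R4) ∞ F := by
  rw [← contMDiff_iff_contDiff, modelWithCornersSelf_prod, ← chartedSpaceSelf_prod] at h
  exact h

/-- conjugation of a compactly supported diffeomorphism by an embedding of its support -/
theorem conjR {R N N' : R4 → R4} {K : Set R4} (hK : IsCompact K) (hR : EmbOn I4 R K)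
    (hN : ContDiff ℝ ∞ N) (hN' : ContDiff ℝ ∞ N') (h1 : ∀ x, N' (N x) = x)
    (h2 : ∀ x, N (N' x) = x) (h3 : ∀ x, x ∉ K → N x = x) :
    ∃ M M' : R4 → R4, ContDiff ℝ ∞ M ∧ ContDiff ℝ ∞ M' ∧ (∀ x, M' (M x) = x) ∧
      (∀ x, M (M' x) = x) ∧ (∀ x ∈ K, M (R x) = R (N x)) ∧ ∀ y, y ∉ R '' K → M y = y := by
  obtain ⟨ε, hε1, hε2⟩ := hA1 R4 R4 R4 I4 R4 R K hK hR.1 hR.2
  let Φ : DFam 𝓘(ℝ, R4) R4 :=
    { f := fun q => N q.2
      g := fun q => N' q.2
      smooth_f := contMDiff_of (hN.comp contDiff_snd)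
      smooth_g := contMDiff_of (hN'.comp contDiff_snd)
      fg := fun _ x => h2 x
      gf := fun _ x => h1 x }
  have hΦ : ∀ (t : ℝ) (x : R4), x ∉ K → Φ.f (t, x) = x := fun _ x hx => h3 x hx
  let Ψ : DFam 𝓘(ℝ, R4) R4 := Φ.push ε hK hε1 hΦ
  have him : ε '' K = R '' K := image_congr fun p hp => hε2 p (hε1 hp)
  refine ⟨fun y => Ψ.f (0, y), fun y => Ψ.g (0, y), ?_, ?_, fun x => Ψ.gf 0 x,
    fun x => Ψ.fg 0 x, fun x hx => ?_, fun y hy => ?_⟩
  · exact (contDiff_dfam Ψ).comp (contDiff_prodMk_right 0)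
  · exact (contDiff_dfam_inv Ψ).comp (contDiff_prodMk_right 0)
  · have h5 : N x ∈ K := Φ.mapsTo hΦ 0 hx
    show push ε (fun x => Φ.f (0, x)) (R x) = R (N x)
    rw [← hε2 x (hε1 hx), push_of_mem ε _ (hε1 hx), ← hε2 (N x) (hε1 h5)]
  · show push ε (fun x => Φ.f (0, x)) y = y
    apply push_of_notMem ε _ hε1 (fun x hx => hΦ 0 x hx)
    rwa [him]

/-- the region of the conjugated map -/
def KM : Set R4 := {p | 0 ≤ p.1 ∧ p.1 ≤ 1 ∧ (1 / 400) ^ 2 ≤ rsq 1 p ∧ rsq 1 p ≤ 49 / 100}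

theorem isClosed_KM : IsClosed KM :=
  (isClosed_le continuous_const continuous_fst).inter
    ((isClosed_le continuous_fst continuous_const).inter
      ((isClosed_le continuous_const Geo.continuous_rsq1).inter
        (isClosed_le Geo.continuous_rsq1 continuous_const)))

theorem KM_ball4 : KM ⊆ ball4 := by
  rintro p ⟨h1, h2, -, h4⟩
  rw [Geo.rsq1] at h4
  have a : |p.2.1 - 1| ≤ 7 / 10 := by
    apply abs_le_of_sq_le_sq _ (by norm_num)
    nlinarith [sq_nonneg p.2.2.re, sq_nonneg p.2.2.im]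
  rw [abs_le] at a
  have e0 : rsq 0 p = p.2.1 ^ 2 + p.2.2.re ^ 2 + p.2.2.im ^ 2 := by
    rw [rsq0_eq, Geo.nsq_def]
  refine ⟨by linarith, by linarith, ?_⟩
  rw [e0]
  nlinarith

theorem isCompact_KM : IsCompact KM :=
  Geo.isCompact_ball4.of_isClosed_subset isClosed_KM KM_ball4

/-- the thin finger push is the identity far from the line -/
theorem S_far {c : ℝ} {S S' : R4 → R4} (hS : SHat c S S') {p : R4} (h : 49 / 100 ≤ rsq 1 p) :
    S p = p := by
  apply hS.thin p.1 p.2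
  intro τ hτ
  have b0 := bfin_nonneg p.1
  have b1 := bfin_le p.1
  rw [Geo.rsq1] at h
  have e : nsq (p.2 - (1 - τ * bfin p.1) • e1) =
      (p.2.1 - 1 + τ * bfin p.1) ^ 2 + p.2.2.re ^ 2 + p.2.2.im ^ 2 := by
    rw [Geo.nsq_def, Geo.e1_def]
    simp
    ring
  rw [e]
  have t0 : 0 ≤ τ * bfin p.1 := mul_nonneg hτ.1 b0
  have t1 : τ * bfin p.1 ≤ 27 / 100 := by
    calc τ * bfin p.1 ≤ 1 * bfin p.1 := mul_le_mul_of_nonneg_right hτ.2 b0
      _ ≤ 27 / 100 := by rw [one_mul]; exact b1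
  by_contra hcon
  push Not at hcon
  have r1 := sq_nonneg p.2.2.re
  have r2 := sq_nonneg p.2.2.im
  have a1 : |p.2.1 - 1 + τ * bfin p.1| ≤ 1 / 50 := by
    apply abs_le_of_sq_le_sq _ (by norm_num)
    linarith
  rw [abs_le] at a1
  have a2 : (p.2.1 - 1) ^ 2 ≤ (29 / 100) ^ 2 := by
    apply sq_le_sq'
    · linarith [a1.1]
    · linarith [a1.2]
  have a3 := sq_nonneg (p.2.1 - 1 + τ * bfin p.1)
  norm_num at a2 hcon
  linarith

section
variable {T S S' : R4 → R4} {δ c : ℝ} {H : DFam 𝓘(ℝ, R4) R4}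

theorem S'_fix (hS : SHat c S S') {p : R4} (h : S p = p) : S' p = p := by
  have h1 := hS.left p
  rwa [h] at h1

theorem N_out (hH : THat T c H) (hS : SHat c S S') {p : R4}
    (h : p.1 ≤ 1 / 20 ∨ 19 / 20 ≤ p.1 ∨ 49 / 100 ≤ rsq 1 p) : S' (H.f (1, p)) = p := by
  rw [hH.supp 1 p h]
  apply S'_fix hS
  rcases h with h | h | h
  · exact hS.out p.1 p.2 (Or.inl (by linarith))
  · exact hS.out p.1 p.2 (Or.inr (by linarith))
  · exact S_far hS h

theorem N_near (hH : THat T c H) (hS : SHat c S S') {p : R4}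
    (h : rsq 1 p ≤ (1 / 200) ^ 2) : S' (H.f (1, p)) = p := by
  rw [Geo.H_ball hH (h.trans (by norm_num))]
  have h1 := hS.near p.1 (p.2 - e1) (by rw [← rsq1_eq]; exact h)
  rw [add_sub_cancel] at h1
  rw [← h1]
  exact hS.left p

theorem N_KM (hH : THat T c H) (hS : SHat c S S') {p : R4} (h : p ∉ KM) :
    S' (H.f (1, p)) = p := by
  by_cases h1 : p.1 ≤ 1 / 20 ∨ 19 / 20 ≤ p.1 ∨ 49 / 100 ≤ rsq 1 p
  · exact N_out hH hS h1
  · push Not at h1
    apply N_near hH hS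
    by_contra h2
    push Not at h2
    apply h
    refine ⟨by linarith [h1.1], by linarith [h1.2.1], ?_, h1.2.2.le⟩
    refine le_trans ?_ h2.le
    norm_num

end

end MH

open MH in
/-- **MH.** -/
theorem m_MH : StMH := by
  intro T S S' δ c H hδ _ hH hS
  have hpos : ∀ p ∈ KM, 0 < rsq 1 p := fun p hp => by
    have := hp.2.2.1
    norm_num at this
    linarith
  have hinj : InjOn (rade δ 1) {p | 0 < rsq 1 p} := (rade_emb hδ).2
  have hR : EmbOn I4 (rade δ 1) KM :=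
    ⟨fun p hp => (rade_emb hδ).1 p (hpos p hp), hinj.mono hpos⟩
  obtain ⟨M, M', a1, a2, a3, a4, a5, a6⟩ := conjR (N := fun p => S' (H.f (1, p)))
    (N' := fun p => H.g (1, S p)) isCompact_KM hR
    (hS.smooth'.comp ((contDiff_dfam H).comp (contDiff_prodMk_right 1)))
    (((contDiff_dfam_inv H).comp (contDiff_prodMk_right 1)).comp hS.smooth)
    (fun x => by
      show H.g (1, S (S' (H.f (1, x)))) = x
      rw [hS.right, H.gf])
    (fun x => by
      show S' (H.f (1, H.g (1, S x))) = x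
      rw [H.fg, hS.left])
    (fun x hx => N_KM hH hS hx)
  refine ⟨M, M', a1, a2, a3, a4, ?_, ?_, ?_⟩
  · intro p hp
    by_cases h : p ∈ KM
    · exact a5 p h
    · rw [N_KM hH hS h]
      apply a6
      rintro ⟨q, hq, hqe⟩
      have := hinj (hpos q hq) hp hqe
      exact h (this ▸ hq)
  · have m := Geo.qe_mono hδ
    have l : 1 / 25 - 3 * δ < qe δ ((1 / 400) ^ 2) :=
      lt_of_le_of_lt (qe_low hδ.1 hδ.2 le_rfl) (m (by norm_num))
    refine ⟨(qe δ ((1 / 400) ^ 2) - (1 / 25 - 3 * δ)) / 2, by linarith, fun p hp => ?_⟩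
    apply a6
    rintro ⟨q, hq, hqe⟩
    have h1 := Geo.rsq_rade hδ (hpos q hq)
    have h2 := m.monotone hq.2.2.1
    rw [← hqe, h1] at hp
    linarith
  · intro p hp
    by_cases h : p ∈ rade δ 1 '' KM
    · obtain ⟨q, hq, rfl⟩ := h
      rw [a5 q hq]
      congr 1
      apply N_out hH hS
      rcases hp with hp | hp | hp
      · exact Or.inl hp
      · exact Or.inr (Or.inl hp)
      · right; right
        rw [Geo.rsq_rade hδ (hpos q hq)] at hp
        by_contra h3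
        push Not at h3
        have h4 := Geo.qe_mono hδ h3
        rw [qe_eq hδ.1 (q := 49 / 100) (by linarith [hδ.1])] at h4
        linarith
    · exact a6 p h

end Pool.Agent.Helper27.S5
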